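import Pool.Agent.Lib.MP_db21fa_an.H28.Forward
import Pool.Agent.Lib.MP_db21fa_an.H28.Theta

/-!
# The solutions of `h (x - y) b (x + y) = ∑ f_j (x) g_j (y)` carried by an algebraic curve

We determine, for all `N` and without growth assumptions, the solutions in entire functions on `ℂ`
for which the holomorphic curve `x ↦ [f_1 (x) : ⋯ : f_N (x)]` lies in an algebraic curve. They are
exactly the common-Gaussian multiples of polynomials, those of polynomials in one exponential, and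
the pairs of theta functions for a common lattice; order-two growth is automatic.
-/

set_option autoImplicit false

open Pool.Agent.Lib.MP_db21fa_an.H28

namespace Pool.Agent.Results.MP_db21fa_an.AlgebraicCurveSolutions

/-- Order-two growth: `|F z| ≤ A exp (c |z|^2)` for some real `A`, `c`. -/
def OrderTwo (F : ℂ → ℂ) : Prop := ∃ A c : ℝ, ∀ z, ‖F z‖ ≤ A * Real.exp (c * ‖z‖ ^ 2)

/-- Entire of order-two growth. -/
def EntireOrderTwo (F : ℂ → ℂ) : Prop := Differentiable ℂ F ∧ OrderTwo F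

/-- The holomorphic curve `x ↦ [f_1 (x) : ⋯ : f_N (x)]` lies in an algebraic curve: any three of
its coordinates satisfy a nonzero homogeneous polynomial equation. -/
def InAlgebraicCurve {N : ℕ} (f : Fin N → ℂ → ℂ) : Prop :=
  ∀ i j k : Fin N, ∃ P : MvPolynomial (Fin 3) ℂ, P ≠ 0 ∧ (∃ m, P.IsHomogeneous m) ∧
    ∀ x, MvPolynomial.eval ![f i x, f j x, f k x] P = 0

/-- `h = e^{αz²+β₁z} P(z)` and `b = e^{αz²+β₂z} Q(z)` with polynomials `P`, `Q`. -/
def RationalPair (h b : ℂ → ℂ) : Prop :=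
  ∃ (α β₁ β₂ : ℂ) (P Q : Polynomial ℂ), ∀ z,
    h z = Complex.exp (α * z ^ 2 + β₁ * z) * P.eval z ∧
    b z = Complex.exp (α * z ^ 2 + β₂ * z) * Q.eval z

/-- `h = e^{αz²+β₁z} P(e^{lz})` and `b = e^{αz²+β₂z} Q(e^{lz})` with polynomials `P`, `Q`. -/
def TrigPair (h b : ℂ → ℂ) : Prop :=
  ∃ (α β₁ β₂ l : ℂ) (P Q : Polynomial ℂ), ∀ z,
    h z = Complex.exp (α * z ^ 2 + β₁ * z) * P.eval (Complex.exp (l * z)) ∧
    b z = Complex.exp (α * z ^ 2 + β₂ * z) * Q.eval (Complex.exp (l * z))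

/-- `h` and `b` are theta functions for one lattice `ℤω₁ + ℤω₂`: translation by `ω_i` multiplies
`h` by `e^{a_i z + p_i}` and `b` by `e^{a_i z + q_i}`. -/
def ThetaPair (h b : ℂ → ℂ) : Prop :=
  ∃ ω₁ ω₂ a₁ a₂ p₁ p₂ q₁ q₂ : ℂ, LinearIndependent ℝ ![ω₁, ω₂] ∧ ∀ z,
    h (z + ω₁) = Complex.exp (a₁ * z + p₁) * h z ∧ h (z + ω₂) = Complex.exp (a₂ * z + p₂) * h z ∧
    b (z + ω₁) = Complex.exp (a₁ * z + q₁) * b z ∧ b (z + ω₂) = Complex.exp (a₂ * z + q₂) * b z

/-- For nonzero entire functions `h`, `b` the following are equivalent: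
1. for some `N`, `h (x - y) b (x + y) = ∑ f_j (x) g_j (y)` with entire `f_j`, arbitrary `g_j` and
   `[f_1 : ⋯ : f_N]` in an algebraic curve;
2. `h`, `b` have order-two growth, and the same holds with entire `f_j`, `g_j` of order-two growth;
3. `(h, b)` is a rational, a trigonometric or a theta pair. -/
theorem result (h b : ℂ → ℂ) (hh : Differentiable ℂ h) (hb : Differentiable ℂ b)
    (h0 : ∃ z, h z ≠ 0) (b0 : ∃ z, b z ≠ 0) :
    [∃ (N : ℕ) (f g : Fin N → ℂ → ℂ), (∀ j, Differentiable ℂ (f j)) ∧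
      (∀ x y : ℂ, h (x - y) * b (x + y) = ∑ j, f j x * g j y) ∧ InAlgebraicCurve f,
     OrderTwo h ∧ OrderTwo b ∧ ∃ (N : ℕ) (f g : Fin N → ℂ → ℂ),
      (∀ j, EntireOrderTwo (f j)) ∧ (∀ j, EntireOrderTwo (g j)) ∧
      (∀ x y : ℂ, h (x - y) * b (x + y) = ∑ j, f j x * g j y) ∧ InAlgebraicCurve f,
     RationalPair h b ∨ TrigPair h b ∨ ThetaPair h b].TFAE := by
  tfae_have 1 → 3 := by
    rintro ⟨N, f, g, hf, heq, hrel⟩
    have e0 : (⟨h, hh⟩ : Ent) ≠ 0 := by
      intro h1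
      obtain ⟨z, hz⟩ := h0
      exact hz (congrFun (congrArg Subtype.val h1) z)
    have e1 : (⟨b, hb⟩ : Ent) ≠ 0 := by
      intro h1
      obtain ⟨z, hz⟩ := b0
      exact hz (congrFun (congrArg Subtype.val h1) z)
    obtain ⟨ho, bo⟩ := auto_growth hh.continuous hb.continuous h0 b0 f g heq
    exact forward2 ⟨h, hh⟩ ⟨b, hb⟩ e0 e1 ho bo N (fun j => ⟨f j, hf j⟩) g heq hrel
  tfae_have 3 → 2 := by
    rintro (h1 | h1 | h1)
    · exact sol_rational hh hb h0 b0 h1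
    · exact sol_trig hh hb h0 b0 h1
    · exact sol_theta hh hb h0 b0 h1
  tfae_have 2 → 1 := by
    rintro ⟨_, _, N, f, g, hf, _, heq, hrel⟩
    exact ⟨N, f, g, fun j => (hf j).1, heq, hrel⟩
  tfae_finish

end Pool.Agent.Results.MP_db21fa_an.AlgebraicCurveSolutions
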