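import Pool.Agent.Lib.MP_db21fa_an.TP.FinalTP

/-!
# All solutions of `h (x - y) b (x + y) = ∑ f_j (x) g_j (y)` on `ℂ ^ n`

For all `n` and `N` and without growth assumptions we determine the pairs of entire functions `h`,
`b` on `ℂ ^ n` such that `h (x - y) b (x + y)` is a finite sum of products of a function of `x` and
a function of `y`: up to one common Gaussian factor, `h` and `b` are finite sums of exponential
polynomials times partial derivatives of theta functions on some `ℂ ^ m`, composed with one linear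
map `ℂ ^ n → ℂ ^ m`, all theta functions having the same period vectors and the same linear forms in
the exponents of their multipliers. Conversely all such pairs are solutions. If the sum has `N`
terms, theta functions of `m` variables with `2 ^ m ≤ N` suffice.
-/

set_option autoImplicit false

open Pool.Agent.Lib.MP_db21fa_an.TF

namespace Pool.Agent.Results.MP_db21fa_an.Classification

/-- Order-two growth: `|F z| ≤ A exp (c |z|^2)` for some real `A`, `c`. -/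
def OrderTwo {n : ℕ} (F : (Fin n → ℂ) → ℂ) : Prop :=
  ∃ A c : ℝ, ∀ z, ‖F z‖ ≤ A * Real.exp (c * ∑ i, ‖z i‖ ^ 2)

/-- `(h, b, f, g)` is a solution of `(1)_N`: all functions are entire of order-two growth, and
`h (x - y) b (x + y) = ∑ f_j (x) g_j (y)`. -/
def IsSolution {n N : ℕ} (h b : (Fin n → ℂ) → ℂ) (f g : Fin N → (Fin n → ℂ) → ℂ) : Prop :=
  (Differentiable ℂ h ∧ OrderTwo h) ∧ (Differentiable ℂ b ∧ OrderTwo b) ∧
  (∀ j, Differentiable ℂ (f j) ∧ OrderTwo (f j)) ∧ (∀ j, Differentiable ℂ (g j) ∧ OrderTwo (g j)) ∧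
  ∀ x y, h (x - y) * b (x + y) = ∑ j, f j x * g j y

/-- Iterated partial derivatives of a function on `ℂ ^ m`. -/
noncomputable def pd {m : ℕ} : List (Fin m) → ((Fin m → ℂ) → ℂ) → ((Fin m → ℂ) → ℂ)
  | [], f => f
  | (i :: s), f => fun u => fderiv ℂ (pd s f) u (Pi.single i 1)

/-- `θ` is a theta function on `ℂ ^ m` for the period vectors `ω_i` and the linear forms `L_i`:
it is entire and `θ (u + ω_i) = exp (L_i(u) + c_i) θ (u)` with constants `c_i`. -/
def IsTheta {m : ℕ} (ω L : Fin (2 * m) → Fin m → ℂ) (θ : (Fin m → ℂ) → ℂ) : Prop :=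
  Differentiable ℂ θ ∧ ∃ c : Fin (2 * m) → ℂ, ∀ i u,
    θ (u + ω i) = Complex.exp (∑ j, L i j * u j + c i) * θ u

/-- The class of functions on `ℂ ^ n` attached to a quadratic form `A`, a linear map
`V : ℂ ^ n → ℂ ^ m`, period vectors `ω` and linear forms `L`: finite sums
`e^{A(x)} ∑ P_k(x) e^{μ_k · x} (∂^{α_k} θ_k)(V x)`, with polynomials `P_k` and theta functions
`θ_k` for `ω` and `L`. -/
def ThetaExp {n m : ℕ} (A : Matrix (Fin n) (Fin n) ℂ) (V : Matrix (Fin m) (Fin n) ℂ)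
    (ω L : Fin (2 * m) → Fin m → ℂ) (f : (Fin n → ℂ) → ℂ) : Prop :=
  ∃ (K : ℕ) (P : Fin K → MvPolynomial (Fin n) ℂ) (μ : Fin K → Fin n → ℂ)
    (α : Fin K → List (Fin m)) (θ : Fin K → (Fin m → ℂ) → ℂ), (∀ k, IsTheta ω L (θ k)) ∧
    ∀ x, f x = Complex.exp (∑ i, ∑ j, A i j * x i * x j) *
      ∑ k, MvPolynomial.eval x (P k) * Complex.exp (∑ i, μ k i * x i) *
        pd (α k) (θ k) (V.mulVec x)

/-- `h` and `b` are in one class `ThetaExp A V ω L` with `ω_1, …, ω_{2m}` a real basis of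
`ℂ ^ m`, where `2 ^ m ≤ N`. -/
def ThetaPair {n : ℕ} (N : ℕ) (h b : (Fin n → ℂ) → ℂ) : Prop :=
  ∃ (m : ℕ) (A : Matrix (Fin n) (Fin n) ℂ) (V : Matrix (Fin m) (Fin n) ℂ)
    (ω L : Fin (2 * m) → Fin m → ℂ), 2 ^ m ≤ N ∧ LinearIndependent ℝ ω ∧ ThetaExp A V ω L h ∧
    ThetaExp A V ω L b

theorem pd_eq {m : ℕ} (s : List (Fin m)) (f : (Fin m → ℂ) → ℂ) :
    pd s f = Pool.Agent.Lib.MP_db21fa_an.TF.pd s f := by
  induction s with
  | nil => rfl
  | cons i s ih =>
    simp only [pd, Pool.Agent.Lib.MP_db21fa_an.TF.pd]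
    rw [ih]

theorem thetaExp_iff {n m : ℕ} (A : Matrix (Fin n) (Fin n) ℂ) (V : Matrix (Fin m) (Fin n) ℂ)
    (ω L : Fin (2 * m) → Fin m → ℂ) (f : (Fin n → ℂ) → ℂ) :
    ThetaExp A V ω L f ↔ Pool.Agent.Lib.MP_db21fa_an.TF.ThetaExp A V ω L f := by
  constructor
  · rintro ⟨K, P, μ, α, θ, h1, h2⟩
    refine ⟨K, P, μ, α, θ, h1, fun x => ?_⟩
    rw [h2 x]
    simp only [pd_eq]
  · rintro ⟨K, P, μ, α, θ, h1, h2⟩
    refine ⟨K, P, μ, α, θ, h1, fun x => ?_⟩
    rw [h2 x]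
    simp only [pd_eq]

/-- For nonzero entire functions `h`, `b` on `ℂ ^ n`:
(a) there are a number `N` and arbitrary functions `f_j`, `g_j` with
`h (x - y) b (x + y) = ∑_{j ≤ N} f_j (x) g_j (y)` if and only if `(h, b)` is a theta pair;
(b) for every `N`, there are `f_j`, `g_j` such that `(h, b, f, g)` is a solution of `(1)_N` if and
only if `(h, b)` is a theta pair with theta functions of `m` variables, `2 ^ m ≤ N`, and all
determinants `det (h (x_i - y_j) b (x_i + y_j))` of size `N + 1` vanish. -/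
theorem result {n : ℕ} (h b : (Fin n → ℂ) → ℂ) (hh : Differentiable ℂ h)
    (hb : Differentiable ℂ b) (hh0 : h ≠ 0) (hb0 : b ≠ 0) :
    ((∃ (N : ℕ) (f g : Fin N → (Fin n → ℂ) → ℂ),
        ∀ x y, h (x - y) * b (x + y) = ∑ j, f j x * g j y) ↔ ∃ M, ThetaPair M h b) ∧
    ∀ N : ℕ, (∃ f g : Fin N → (Fin n → ℂ) → ℂ, IsSolution h b f g) ↔
      ThetaPair N h b ∧ ∀ x y : Fin (N + 1) → Fin n → ℂ,
        (Matrix.of fun i j => h (x i - y j) * b (x i + y j)).det = 0 := by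
  have key : ∀ N, RankLE (PK h b) N → ThetaPair N h b := by
    intro N hs
    obtain ⟨m, A, V, ω, L, hm, hω, h1, h2⟩ := forward_bound hh hb hh0 hb0 hs
    exact ⟨m, A, V, ω, L, hm, hω, (thetaExp_iff _ _ _ _ _).2 h1, (thetaExp_iff _ _ _ _ _).2 h2⟩
  refine ⟨⟨?_, ?_⟩, fun N => ⟨?_, ?_⟩⟩
  · rintro ⟨N, f, g, hs⟩
    exact ⟨N, key N ⟨f, g, hs⟩⟩
  · rintro ⟨M, m, A, V, ω, L, -, hω, h1, h2⟩
    obtain ⟨N, f, g, hs⟩ := converse hω ((thetaExp_iff _ _ _ _ _).1 h1)
      ((thetaExp_iff _ _ _ _ _).1 h2)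
    exact ⟨N, f, g, hs⟩
  · rintro ⟨f, g, hs⟩
    have hr : RankLE (PK h b) N := ⟨f, g, hs.2.2.2.2⟩
    exact ⟨key N hr, rankLE_iff_minors.1 hr⟩
  · rintro ⟨⟨m, A, V, ω, L, -, hω, h1, h2⟩, hdet⟩
    have hr : RankLE (PK h b) N := rankLE_iff_minors.2 hdet
    exact exists_solution hh hb (((thetaExp_iff _ _ _ _ _).1 h1).orderTwo hω)
      (((thetaExp_iff _ _ _ _ _).1 h2).orderTwo hω) hr

end Pool.Agent.Results.MP_db21fa_an.Classification
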