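import Pool.Agent.Lib.MP_db21fa_an_h84.Final

/-!
# A dichotomy for the solutions of `h (x - y) b (x + y) = ∑ f_j (x) g_j (y)` on `ℂ ^ n`

Let `h`, `b` be nonzero entire functions on `ℂ ^ n` such that `h (x - y) b (x + y)` is a finite sum
of products. Either `h = e^{A} P₁`, `b = e^{A} P₂` with one quadratic form `A` and exponential
polynomials `P₁`, `P₂`, and then both functions have zero-free balls of arbitrarily large radius,
or the zeros of `h` and the zeros of `b` are both relatively dense in `ℂ ^ n`, as for theta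
functions.
-/

open Pool.Agent.Lib.MP_db21fa_an_h84 Metric

namespace Pool.Agent.Results.MP_db21fa_an.Dichotomy

/-- The zeros of `f` are relatively dense: every closed ball of radius `R` contains a zero. -/
def ZerosRelDense {n : ℕ} (f : (Fin n → ℂ) → ℂ) : Prop :=
  ∃ R : ℝ, ∀ s : Fin n → ℂ, ∃ z : Fin n → ℂ, ‖z - s‖ ≤ R ∧ f z = 0

theorem zerosRelDense_iff {n : ℕ} (f : (Fin n → ℂ) → ℂ) : ZerosRelDense f ↔ ¬ BigBalls f := by
  constructor
  · rintro ⟨R, hR⟩ hbig
    obtain ⟨s, hs⟩ := hbig (R + 1)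
    obtain ⟨z, hz, hz0⟩ := hR s
    exact hs z (by rw [mem_ball, dist_eq_norm]; linarith) hz0
  · intro h
    unfold BigBalls at h
    push Not at h
    obtain ⟨R, hR⟩ := h
    refine ⟨R, fun s => ?_⟩
    obtain ⟨z, hz, hz0⟩ := hR s
    rw [mem_ball, dist_eq_norm] at hz
    exact ⟨z, hz.le, hz0⟩

/-- Every solution with `h`, `b` nonzero either belongs to the exponential family, and then neither
zero set is relatively dense, or it does not, and then both zero sets are relatively dense. -/
theorem result {n N : ℕ} {h b : (Fin n → ℂ) → ℂ} (hh : Differentiable ℂ h)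
    (hb : Differentiable ℂ b) (h0 : ∃ z, h z ≠ 0) (b0 : ∃ z, b z ≠ 0)
    (f g : Fin N → (Fin n → ℂ) → ℂ)
    (heq : ∀ x y : Fin n → ℂ, h (x - y) * b (x + y) = ∑ j, f j x * g j y) :
    (ExpFamily h b ∧ ¬ ZerosRelDense h ∧ ¬ ZerosRelDense b) ∨
      (¬ ExpFamily h b ∧ ZerosRelDense h ∧ ZerosRelDense b) := by
  have H : MC N h b := mc_of_sum heq
  rw [zerosRelDense_iff, zerosRelDense_iff, not_not, not_not]
  by_cases hE : ExpFamily h b
  · exact Or.inl ⟨hE, bigBalls_of_expFamily hE h0, bigBalls_of_expFamily (expFamily_symm hE) b0⟩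
  · refine Or.inr ⟨hE, fun hbig => hE ?_, fun hbig => hE ?_⟩
    · exact expFamily_of_bigBalls hh hb H h0 b0 hbig
    · exact expFamily_symm (expFamily_of_bigBalls hb hh H.symm b0 h0 hbig)

end Pool.Agent.Results.MP_db21fa_an.Dichotomy
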