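import Pool.Agent.Lib.MP_db21fa_an_h84.One

/-!
# Solutions in one variable with one function of minimal type

For nonzero entire functions `h`, `b` on `ℂ` with `h` of minimal type of order two (in particular
of order less than two), `h (x - y) b (x + y)` is a finite sum of products if and only if both
`h` and `b` are exponential polynomials.
-/

open Pool.Agent.Lib.MP_db21fa_an_h84

namespace Pool.Agent.Results.MP_db21fa_an.MinimalType

/-- Minimal type of order two: `|h(z)| ≤ C_ε e^{ε |z|^2}` for every `ε > 0`. -/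
def OfMinimalType (h : ℂ → ℂ) : Prop :=
  ∀ ε : ℝ, 0 < ε → ∃ C : ℝ, ∀ z, ‖h z‖ ≤ C * Real.exp (ε * ‖z‖ ^ 2)

/-- Exponential polynomials: finite sums of `p_λ(z) e^{λ z}`. -/
def ExpPolynomial (P : ℂ → ℂ) : Prop :=
  ∃ (Λ : Finset ℂ) (p : ℂ → Polynomial ℂ),
    ∀ z, P z = ∑ lam ∈ Λ, (p lam).eval z * Complex.exp (lam * z)

theorem result {h b : ℂ → ℂ} (hh : Differentiable ℂ h) (hb : Differentiable ℂ b)
    (h0 : ∃ z, h z ≠ 0) (b0 : ∃ z, b z ≠ 0) (hmin : OfMinimalType h) :
    (∃ (N : ℕ) (f g : Fin N → ℂ → ℂ),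
      ∀ x y : ℂ, h (x - y) * b (x + y) = ∑ j, f j x * g j y) ↔
      ExpPolynomial h ∧ ExpPolynomial b := by
  constructor
  · rintro ⟨N, f, g, heq⟩
    exact expPoly_of_minimal hh hb h0 b0 heq hmin
  · rintro ⟨h1, h2⟩
    exact exists_sum_of_expPoly h1 h2

end Pool.Agent.Results.MP_db21fa_an.MinimalType
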